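import Pool.Agent.MWA.StmtsP

/-!
# Row JPQ: join primality of the exchanges, period n
-/

namespace Pool.Agent.MWA.H51P

open Pool.Agent.Helper14_MV Pool.Agent.Helper2_MV Pool.Agent.MVO Pool.Agent.MWL
open Pool.Agent.MWS Pool.Agent.MWA

theorem deg_ad (n k : ℕ) (a : ℕ → ℕ) (j : ℕ) : deg k a ≤ deg k (ad n a j) := by
  unfold deg ad
  apply Finset.sum_le_sum
  intro r _
  omega

theorem psh_id (k : ℕ) (a : ℕ → ℕ) {t : ℕ} (ht : t ≤ k) : psh k id a t = a t := by
  unfold psh
  rw [Finset.sum_eq_single t]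
  · simp
  · intro r _ hr
    rw [if_neg (by simpa using hr)]
  · intro h
    exact absurd (Finset.mem_range.2 (by omega)) h

theorem l1_refl (θ : FIC) (k : ℕ) (a : ℕ → ℕ) : L1 θ k a a := RR.refl _

theorem lst_ad {n k : ℕ} {a : ℕ → ℕ} {i j : ℕ} (h : Lst k a i) (hj : j ≤ i) :
    Lst k (ad n a j) i := by
  refine ⟨h.1, ?_, ?_⟩
  · have := h.2.1
    simp only [ad]
    omega
  · intro r h1 h2
    simp only [ad]
    rw [h.2.2 r h1 h2, if_neg (by omega)]

open Classical in
/-- the number of the blocks which do not absorb -/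
noncomputable def na (n : ℕ) (β : FIC) (k : ℕ) (a : ℕ → ℕ) : ℕ :=
  ((Finset.range (k + 1)).filter (fun j => ¬ AbN n β k a j)).card

theorem na_lt (h1 : TrnStmt) (h2 : HapStmt) {n : ℕ} {β : FIC} (hβ : BsP n β) {k : ℕ}
    {a : ℕ → ℕ} {j : ℕ} (hj : j ≤ k) (hn : ¬ AbN n β k a j) :
    na n β k (ad n a j) < na n β k a := by
  classical
  have hpos := hβ.pos
  unfold na
  apply Finset.card_lt_card
  refine ⟨?_, ?_⟩
  · intro r hr
    rw [Finset.mem_filter] at hr ⊢
    refine ⟨hr.1, fun hab => hr.2 ?_⟩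
    exact (h1 n (FC.ofFIC β) k a r).2.1 (fun t => if t = j then 2 * n else 0) hab
  · intro hsub
    have hm : j ∈ (Finset.range (k + 1)).filter (fun j => ¬ AbN n β k a j) :=
      Finset.mem_filter.2 ⟨Finset.mem_range.2 (by omega), hn⟩
    have hm2 := (Finset.mem_filter.1 (hsub hm)).2
    apply hm2
    apply (h2 n β hβ.pos hβ.ap).1 k (ad n a j) j hj
    simp only [ad, if_true]
    omega

/-- the induction step -/
theorem jpq_step (h3 : BtfStmt) (h4 : BtpStmt) (h5 : BtuStmt) {n : ℕ}
    {β : FIC} (hβ : BsP n β) (hJ : JPn n β) {ρ σ : FIC} (hρ : β ≤ ρ) (hσ : β ≤ σ)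
    {k : ℕ} {a b : ℕ → ℕ} {i : ℕ} (ha : 2 ≤ deg k a) (hb : 2 ≤ deg k b) (hla : Lst k a i)
    (hlb : Lst k b i) (hB : Bt (FIC.sup ρ σ) k a b i) {θ : FIC} (hθ : β ≤ θ) (hN : NC2 θ)
    {j : ℕ} (hj : j ≤ k) (hab : AbN n θ k a j) (hnb : ¬ AbN n β k a j)
    (ih : 2 ≤ deg k (ad n a j) → Lst k (ad n a j) i → Bt (FIC.sup ρ σ) k (ad n a j) b i →
      Bt ρ k (ad n a j) b i ∨ Bt σ k (ad n a j) b i) :
    Bt θ k a b i ∨ (Bt ρ k a b i ∨ Bt σ k a b i) := by
  have hθA : BsP n θ := BsP.mono hβ hθ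
  have hdeg := deg_ad n k a j
  have hpos := hβ.pos
  by_cases hji : j ≤ i
  · rcases hJ θ hθ hN k a b i j ha hb hla hlb hji hab hnb with h | h
    · exact Or.inl h
    · right
      have hs : β ≤ FIC.sup ρ σ := FIC.le_trans' hρ (FIC.le_sup_left _ _)
      have hl2 : Lst k (ad n a j) i := lst_ad hla hji
      have hB2 : Bt (FIC.sup ρ σ) k (ad n a j) b i := by
        have := h5 (FIC.sup ρ σ) (ClA.mono hβ.cl hs) k k id a b (ad n a j) b i
          ⟨fun _ _ h _ => h, fun _ h => h⟩ ha hb hla hlb hB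
          (fun t ht => by rw [psh_id k a ht]; simp only [ad]; omega)
          (fun t ht => by rw [psh_id k b ht])
        exact this
      rcases ih (le_trans ha hdeg) hl2 hB2 with h' | h'
      · exact Or.inl (h ρ hρ h')
      · exact Or.inr (h σ hσ h')
  · left
    have hnl : ¬ (Lst k (ad n a j) i ∧ Lst k b i) := by
      rintro ⟨hl, _⟩
      have h6 := hl.2.2 j (by omega) hj
      simp only [ad, if_true] at h6
      omega
    have hX : Bt θ k (ad n a j) b i :=
      (h4 θ hθA.cl hθA.r0).1 k (ad n a j) b i (by omega) (by omega) hnl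
    exact (h3 θ k a (ad n a j) b b hab (l1_refl θ k b)).2 i hX

/-- **JPQ** -/
theorem jpq (h1 : TrnStmt) (h2 : HapStmt) (h3 : BtfStmt) (h4 : BtpStmt) (h5 : BtuStmt)
    (h6 : SpqStmt) : JpqStmt := by
  intro n β hβ hC hO hJ ρ σ hρ hσ hNρ hNσ k
  have hs : β ≤ FIC.sup ρ σ := FIC.le_trans' hρ (FIC.le_sup_left _ _)
  have sw : ∀ θ : FIC, β ≤ θ → ∀ (a b : ℕ → ℕ) (i : ℕ), Bt θ k a b i → Bt θ k b a i := by
    intro θ hθ a b i hB
    have hθA : BsP n θ := BsP.mono hβ hθ
    exact (h4 θ hθA.cl hθA.r0).2.1 k a b i hB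
  have key : ∀ (N : ℕ) (a b : ℕ → ℕ) (i : ℕ), na n β k a + na n β k b ≤ N → 2 ≤ deg k a →
      2 ≤ deg k b → Lst k a i → Lst k b i → Bt (FIC.sup ρ σ) k a b i →
        Bt ρ k a b i ∨ Bt σ k a b i := by
    intro N
    induction N with
    | zero =>
      intro a b i hn ha hb hla hlb hB
      by_cases hall : ∀ j ≤ k, (AbN n ρ k a j → AbN n β k a j) ∧
        (AbN n σ k a j → AbN n β k a j) ∧
        (AbN n ρ k b j → AbN n β k b j) ∧ (AbN n σ k b j → AbN n β k b j)
      · exact h6 n β hβ hC hO ρ σ hρ hσ hNρ hNσ k a b i ha hb hla hlb hall hB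
      · exfalso
        apply hall
        intro j hj
        have ha0 : AbN n β k a j := by
          by_contra hc
          have := na_lt h1 h2 hβ hj hc
          omega
        have hb0 : AbN n β k b j := by
          by_contra hc
          have := na_lt h1 h2 hβ hj hc
          omega
        exact ⟨fun _ => ha0, fun _ => ha0, fun _ => hb0, fun _ => hb0⟩
    | succ N ihn =>
      intro a b i hn ha hb hla hlb hB
      by_cases hall : ∀ j ≤ k, (AbN n ρ k a j → AbN n β k a j) ∧
        (AbN n σ k a j → AbN n β k a j) ∧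
        (AbN n ρ k b j → AbN n β k b j) ∧ (AbN n σ k b j → AbN n β k b j)
      · exact h6 n β hβ hC hO ρ σ hρ hσ hNρ hNσ k a b i ha hb hla hlb hall hB
      · have hBs : Bt (FIC.sup ρ σ) k b a i := sw _ hs a b i hB
        have caseA : ∀ (θ : FIC), β ≤ θ → NC2 θ → ∀ j ≤ k, AbN n θ k a j → ¬ AbN n β k a j →
            Bt θ k a b i ∨ (Bt ρ k a b i ∨ Bt σ k a b i) := by
          intro θ hθ hN j hj hab hnb
          apply jpq_step h3 h4 h5 hβ hJ hρ hσ ha hb hla hlb hB hθ hN hj hab hnb
          intro hd hl hB2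
          have := na_lt h1 h2 hβ hj hnb
          exact ihn (ad n a j) b i (by omega) hd hb hl hlb hB2
        have caseB : ∀ (θ : FIC), β ≤ θ → NC2 θ → ∀ j ≤ k, AbN n θ k b j → ¬ AbN n β k b j →
            Bt θ k a b i ∨ (Bt ρ k a b i ∨ Bt σ k a b i) := by
          intro θ hθ hN j hj hab hnb
          have hstep := jpq_step (ρ := ρ) (σ := σ) h3 h4 h5 hβ hJ hρ hσ hb ha hlb hla
            hBs hθ hN hj hab hnb (fun hd hl hB2 => by
              have := na_lt h1 h2 hβ hj hnb
              exact ihn (ad n b j) a i (by omega) hd ha hl hla hB2)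
          rcases hstep with h | h | h
          · exact Or.inl (sw θ hθ b a i h)
          · exact Or.inr (Or.inl (sw ρ hρ b a i h))
          · exact Or.inr (Or.inr (sw σ hσ b a i h))
        by_contra hcon
        apply hall
        intro j hj
        refine ⟨fun h => ?_, fun h => ?_, fun h => ?_, fun h => ?_⟩
        · by_contra hc
          rcases caseA ρ hρ hNρ j hj h hc with h' | h'
          · exact hcon (Or.inl h')
          · exact hcon h'
        · by_contra hc
          rcases caseA σ hσ hNσ j hj h hc with h' | h'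
          · exact hcon (Or.inr h')
          · exact hcon h'
        · by_contra hc
          rcases caseB ρ hρ hNρ j hj h hc with h' | h'
          · exact hcon (Or.inl h')
          · exact hcon h'
        · by_contra hc
          rcases caseB σ hσ hNσ j hj h hc with h' | h'
          · exact hcon (Or.inr h')
          · exact hcon h'
  intro a b i ha hb hla hlb hB
  exact key _ a b i (le_refl _) ha hb hla hlb hB

end Pool.Agent.MWA.H51P
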